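import Pool.Agent.H.MP_07c8c2_lc.A

set_option autoImplicit false

open Cardinal Set Filter Pool.Agent.H.MP_07c8c2_lc

namespace Pool.Agent.Results.MP_071b0a_lc.No

universe u

/-- the set chosen in round a of the play with cuts f -/
def Ch {K G : Type} (σ : G → (G → Set K × Set K) → Bool) (f : G → Set K × Set K) (a : G) : Set K :=
  if σ a f then (f a).1 else (f a).2

/-- Choose wins the game on κ with the bounded ideal and γ rounds -/
def Wins (κ γ : Cardinal.{0}) : Prop :=
  ∃ σ : γ.ord.ToType → (γ.ord.ToType → Set κ.ord.ToType × Set κ.ord.ToType) → Bool,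
    (∀ a f g, (∀ b ≤ a, f b = g b) → σ a f = σ a g) ∧ ∀ f a,
      (∀ b ≤ a, (f b).1 ∪ (f b).2 = (⋂ c < b, Ch σ f c) ∧ Disjoint (f b).1 (f b).2) →
        ¬ BddAbove (Ch σ f a)

/-- decreasing sequences of length below γ have lower bounds -/
def Closed (γ : Cardinal.{0}) (P : Type u) [Preorder P] : Prop :=
  ∀ (ι : Type) [LinearOrder ι] [WellFoundedLT ι], #ι < γ → ∀ s : ι → P, Antitone s →
    ∃ q, ∀ i, q ≤ s i

/-- all conditions force that U names a uniform V-normal V-ultrafilter on K -/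
structure GenUlt {K : Type} [LinearOrder K] {P : Type u} [Preorder P] (U : Set (Set K × P)) :
    Prop where
  up : ∀ A B p, A ⊆ B → Mem A U p → Mem B U p
  inter : ∀ A B p, Mem A U p → Mem B U p → Mem (A ∩ B) U p
  ultra : ∀ A p, ∃ q ≤ p, Mem A U q ∨ Mem Aᶜ U q
  unif : ∀ A p, BddAbove A → ¬ Mem A U p
  normal : ∀ (A : Set K) (f : K → K) p, (∀ a ∈ A, f a < a) → Mem A U p →
    ∃ q ≤ p, ∃ b, Mem {a ∈ A | f a = b} U q

/-- every μ-complete filter extends to a countably complete ultrafilter -/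
def Compact (μ : Cardinal.{0}) : Prop := ∀ (X : Type) (F : Filter X), F.NeBot →
  CardinalInterFilter F μ → ∃ U : Ultrafilter X, (U : Filter X) ≤ F ∧ CountableInterFilter (U : Filter X)

lemma cp {κ : Cardinal.{0}} (hκ : κ.IsRegular) {P : Type u} [Preorder P]
    {U : Set (Set κ.ord.ToType × P)} (h : GenUlt U) {L : Type} (hL : #L < κ)
    (g : κ.ord.ToType → L) (p : P) : ∃ q ≤ p, ∃ l, Mem {a | g a = l} U q := by
  obtain ⟨j⟩ : Nonempty (L ↪ κ.ord.ToType) := by
    rw [← Cardinal.le_def, mk_ord_toType]; exact hL.le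
  obtain ⟨b, hb⟩ : ∃ b, ∀ l, j l < b := by
    by_contra! k
    refine (mk_range_le.trans_lt hL).not_ge ((hκ.le_cof_ord.trans (Ordinal.cof_toType _).ge).trans
      (Order.cof_le (s := range j) fun a => ?_))
    exact (k a).elim fun l e => ⟨_, ⟨l, rfl⟩, e⟩
  obtain ⟨q, a, c | c⟩ := h.ultra (Iic b) p
  · exact (h.unif _ _ bddAbove_Iic c).elim
  obtain ⟨r, d, x, e⟩ := h.normal _ (fun a => j (g a)) q (fun a i => (hb _).trans (not_le.1 i)) c
  obtain ⟨y, -, rfl⟩ : {a ∈ (Iic b)ᶜ | j (g a) = x}.Nonempty := nonempty_iff_ne_empty.2 fun i =>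
    h.unif _ _ ⟨b, fun _ => False.elim⟩ (i ▸ e)
  exact ⟨r, d.trans a, g y, h.up _ _ _ (fun z i => j.injective i.2) e⟩

theorem result (μ : Cardinal.{0}) (hμ : Compact μ) : ∃ κ γ : Cardinal.{0}, κ.IsRegular ∧
    γ.IsRegular ∧ ℵ₀ < γ ∧ γ < κ ∧ Wins κ γ ∧ ∀ (P : Type u) [Preorder P] [Nonempty P],
      Closed γ P → ∀ U : Set (Set κ.ord.ToType × P), ¬ GenUlt U := by
  classical
  let c : ℕ → Cardinal.{0} := fun n => Order.succ^[n] (max μ ℵ₁)
  have c1 : max μ ℵ₁ ≤ sum c := le_sum c 0
  have c2 : ℵ₀ < sum c := aleph0_lt_aleph_one.trans_le ((le_max_right _ _).trans c1)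
  have c3 : Order.succ (sum c) ≤ #(ℕ → (sum c).out) := Order.succ_le_of_lt ((sum_lt_prod c
    (fun n => c (n + 1)) fun n => by simp [c, Function.iterate_succ_apply']).trans_le
      ((prod_le_prod _ (fun _ => sum c) fun n => le_sum c _).trans (by simp)))
  have hκ := isRegular_succ c2.le
  refine ⟨_, _, hκ, isRegular_aleph_one, aleph0_lt_aleph_one, ((le_max_right _ _).trans c1).trans_lt
    (Order.lt_succ _), ?_, fun P _ _ k U h => ?_⟩
  · obtain ⟨U, u1, u2⟩ := hμ _ (cocardinal (Order.succ (sum c)).ord.ToType hκ)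
      ⟨fun e => ((mem_cocardinal (hreg := hκ)).1 (e ▸ mem_bot : ∅ ∈ _)).ne (by
        rw [compl_empty, mk_univ, mk_ord_toType])⟩
      (.of_cardinalInterFilter_of_le _ (((le_max_left _ _).trans c1).trans (Order.le_succ _)))
    refine ⟨fun a f => decide ((f a).1 ∈ U), fun a f g e => by simp only [e a le_rfl], fun f a e => ?_⟩
    have : ∀ b ≤ a, Ch (fun a f => decide ((f a).1 ∈ U)) f b ∈ U := fun b => by
      induction b using WellFoundedLT.induction with | _ b ih => ?_
      intro i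
      have : (f b).1 ∪ (f b).2 ∈ U := by
        rw [(e b i).1]
        exact (countable_bInter_mem (S := {x | x < b}) (l := (U : Filter _)) (s := fun d _ => Ch _ f d)
          (by simpa using mk_Iio_lt b)).2 fun d j => ih d j (j.le.trans i)
      by_cases j : (f b).1 ∈ U
      · simp [Ch, j]
      · simpa [Ch, j] using this
    rintro ⟨b, i⟩
    exact Ultrafilter.compl_mem_iff_notMem.1 (u1 (compl_mem_cocardinal_of_card_lt
      ((mk_le_mk_of_subset (t := Iic b) i).trans_lt (by
        simpa using mk_Iic_lt b (by simp) (by simpa using hκ.1))))) (this a le_rfl)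
  have : Nonempty (Order.succ (sum c)).ord.ToType := mk_ne_zero_iff.1 (by simp)
  obtain ⟨x⟩ : Nonempty ((Order.succ (sum c)).ord.ToType ↪ (ℕ → (sum c).out)) := by
    rwa [← Cardinal.le_def, mk_ord_toType]
  choose s s1 y s2 using fun n p => cp hκ h (L := (sum c).out) (by simp) (x · n) p
  let p : ℕ → P := Nat.rec (Classical.arbitrary P) s
  obtain ⟨q, hq⟩ := k ℕ (by simp) p
    (antitone_nat_of_succ_le fun n => s1 n _)
  choose! g hg using fun a (e : ¬ ∀ n, x a n = y n (p n)) => not_forall.1 e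
  obtain ⟨r, a, _ | n, b⟩ := cp hκ h (L := Option ℕ) (by simpa using c2.trans (Order.lt_succ _))
    (fun a => if ∀ n, x a n = y n (p n) then none else some (g a)) q
  · refine h.unif _ _ (Subsingleton.finite fun z i w j => x.injective (funext fun n => ?_)).bddAbove b
    simp only [mem_ofPred_eq, ite_eq_left_iff, reduceCtorEq, imp_false, not_not] at i j
    rw [i, j]
  · refine h.unif _ _ (Subsingleton.finite fun z i => ?_).bddAbove
      (h.inter _ _ r b ((s2 n (p n)).mono (a.trans (hq (n + 1)))))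
    obtain ⟨i, j⟩ := i
    simp only [mem_ofPred_eq] at i j
    split_ifs at i with e
    exact (hg z e (Option.some.inj i ▸ j)).elim

end Pool.Agent.Results.MP_071b0a_lc.No
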